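import Mathlib

/-!
# Edges and plaquettes of the toroidal grid
-/

namespace Pool.Agent.Q285.TJ

open Finset

/-- Vertices. -/
abbrev V (L : ℕ) := ZMod L × ZMod L

/-- Edges: `(v, k)` joins `v` and `v + unit k`. -/
abbrev E (L : ℕ) := V L × Bool

variable {L : ℕ}

/-- The unit vectors. -/
def unit (k : Bool) : V L := if k then (0, 1) else (1, 0)

/-- The signed unit vectors. -/
def dir (k s : Bool) : V L := if s then unit k else -unit k

/-- The edge which leaves `c` in the direction `dir k s`. -/
def ed (c : V L) (k s : Bool) : E L := if s then (c, k) else (c - unit k, k)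

/-- The diagonal vectors. -/
def diag (u : Bool → Bool) : V L := dir false (u false) + dir true (u true)

lemma diag_eq (u : Bool → Bool) (k : Bool) : (diag u : V L) = dir k (u k) + dir (!k) (u (!k)) := by
  cases k
  · rfl
  · simp [diag, add_comm]

lemma dir_not (k s : Bool) : (dir k (!s) : V L) = -dir k s := by
  cases s <;> simp [dir]

lemma ed_flip (c : V L) (k s : Bool) : ed (c + dir k s) k (!s) = ed c k s := by
  cases s <;> simp [ed, dir, sub_eq_add_neg]

lemma ed_eq_iff (c c' : V L) (k k' s s' : Bool) : ed c k s = ed c' k' s' ↔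
    k = k' ∧ ((c = c' ∧ s = s') ∨ (c' = c + dir k s ∧ s' = !s)) := by
  cases s <;> cases s' <;> simp [ed, dir]
  · constructor
    · rintro ⟨h, rfl⟩
      exact ⟨rfl, by simpa using h⟩
    · rintro ⟨rfl, rfl⟩
      exact ⟨rfl, rfl⟩
  · constructor
    · rintro ⟨rfl, rfl⟩
      exact ⟨rfl, by abel⟩
    · rintro ⟨rfl, rfl⟩
      exact ⟨by abel, rfl⟩
  · constructor
    · rintro ⟨rfl, rfl⟩
      exact ⟨rfl, by abel⟩
    · rintro ⟨rfl, rfl⟩
      exact ⟨by abel, rfl⟩
  · tauto

section Distinct

variable (hL : 3 ≤ L)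

include hL

lemma one_ne : (1 : ZMod L) ≠ 0 := by
  have : Fact (1 < L) := ⟨by omega⟩
  exact one_ne_zero

lemma two_ne : (2 : ZMod L) ≠ 0 := by
  intro h
  have h1 : ((2 : ℕ) : ZMod L) = 0 := by exact_mod_cast h
  rw [ZMod.natCast_eq_zero_iff] at h1
  have := Nat.le_of_dvd (by norm_num) h1
  omega

lemma one_ne_neg : (1 : ZMod L) ≠ -1 := by
  intro h
  apply two_ne hL
  have : (2 : ZMod L) = 1 + 1 := by norm_num
  rw [this]
  nth_rewrite 1 [h]
  ring

lemma neg_ne_one : (-1 : ZMod L) ≠ 1 := (one_ne_neg hL).symm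

lemma dir_inj (k k' s s' : Bool) (h : (dir k s : V L) = dir k' s') : k = k' ∧ s = s' := by
  have h1 := one_ne hL
  have h2 := one_ne_neg hL
  have h3 := neg_ne_one hL
  revert h
  cases k <;> cases k' <;> cases s <;> cases s' <;> simp [dir, unit, Prod.ext_iff, h1, h2, h3]

lemma dir_ne_zero (k s : Bool) : (dir k s : V L) ≠ 0 := by
  have h1 := one_ne hL
  cases k <;> cases s <;> simp [dir, unit, Prod.ext_iff, h1]

lemma diag_ne_zero (u : Bool → Bool) : (diag u : V L) ≠ 0 := by
  have h1 := one_ne hL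
  unfold diag
  cases u false <;> cases u true <;> simp [dir, unit, Prod.ext_iff, h1]

lemma diag_ne_dir (u : Bool → Bool) (k s : Bool) : (diag u : V L) ≠ dir k s := by
  have h1 := one_ne hL
  unfold diag
  cases u false <;> cases u true <;> cases k <;> cases s <;>
    simp [dir, unit, Prod.ext_iff, h1]

lemma ne_add_dir (c : V L) (k s : Bool) : c ≠ c + dir k s := by
  intro h
  exact dir_ne_zero hL k s (by simpa using h)

end Distinct

/-- The plaquette with the corners `c` and `c + diag u`. -/
def box (c : V L) (u : Bool → Bool) : Finset (E L) :=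
  {ed c false (u false), ed c true (u true),
    ed (c + diag u) false (!u false), ed (c + diag u) true (!u true)}

lemma mem_box (c : V L) (u : Bool → Bool) (e : E L) :
    e ∈ box c u ↔ ∃ k, e = ed c k (u k) ∨ e = ed (c + diag u) k (!u k) := by
  simp only [box, mem_insert, mem_singleton, Bool.exists_bool]
  tauto

lemma corner (c : V L) (u : Bool → Bool) (k : Bool) :
    c + diag u + dir k (!u k) = c + dir (!k) (u (!k)) := by
  rw [diag_eq u k, dir_not]
  abel

lemma corner' (c : V L) (u : Bool → Bool) (k : Bool) :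
    c + diag u + dir (!k) (!u (!k)) = c + dir k (u k) := by
  rw [diag_eq u k, dir_not]
  abel

/-- An edge at a vertex which is not a corner is not in the plaquette. -/
lemma not_mem_box (c : V L) (u : Bool → Bool) (z : V L) (h1 : z ≠ c) (h2 : z ≠ c + diag u)
    (h3 : ∀ k, z ≠ c + dir k (u k)) (k s : Bool) : ed z k s ∉ box c u := by
  rw [mem_box]
  rintro ⟨κ, h | h⟩
  · rw [eq_comm, ed_eq_iff] at h
    obtain ⟨-, ⟨h, -⟩ | ⟨h, -⟩⟩ := h
    · exact h1 h.symm
    · exact h3 κ h
  · rw [eq_comm, ed_eq_iff] at h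
    obtain ⟨-, ⟨h, -⟩ | ⟨h, -⟩⟩ := h
    · exact h2 h.symm
    · rw [corner] at h
      exact h3 _ h

lemma mem_box_start (hL : 3 ≤ L) (c : V L) (u : Bool → Bool) (k s : Bool) :
    ed c k s ∈ box c u ↔ s = u k := by
  rw [mem_box]
  constructor
  · rintro ⟨κ, h | h⟩
    · rw [ed_eq_iff] at h
      obtain ⟨rfl, ⟨-, h⟩ | ⟨h, -⟩⟩ := h
      · exact h
      · exact absurd h (ne_add_dir hL _ _ _)
    · rw [ed_eq_iff] at h
      obtain ⟨rfl, ⟨h, -⟩ | ⟨h, -⟩⟩ := h
      · exact absurd (by simpa using h) (diag_ne_zero hL u)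
      · exact absurd (by simpa using h) (diag_ne_dir hL u k s)
  · rintro rfl
    exact ⟨k, Or.inl rfl⟩

lemma mem_box_end (hL : 3 ≤ L) (c : V L) (u : Bool → Bool) (k s : Bool) :
    ed (c + diag u) k s ∈ box c u ↔ s = !u k := by
  rw [mem_box]
  constructor
  · rintro ⟨κ, h | h⟩
    · rw [eq_comm, ed_eq_iff] at h
      obtain ⟨rfl, ⟨h, -⟩ | ⟨h, -⟩⟩ := h
      · exact absurd (by simpa using h) (diag_ne_zero hL u)
      · exact absurd (by simpa using h) (diag_ne_dir hL u κ (u κ))
    · rw [ed_eq_iff] at h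
      obtain ⟨rfl, ⟨-, h⟩ | ⟨h, -⟩⟩ := h
      · exact h
      · exact absurd h (ne_add_dir hL _ _ _)
  · rintro rfl
    exact ⟨k, Or.inr rfl⟩

/-- The boundary of an edge modulo two. -/
def bd (e : E L) (x : V L) : ZMod 2 := ∑ k : Bool, ∑ s : Bool, if ed x k s = e then 1 else 0

/-- The degree. -/
def deg (J : Finset (E L)) (x : V L) : ℕ := ∑ k : Bool, ∑ s : Bool, if ed x k s ∈ J then 1 else 0

lemma deg_cast (J : Finset (E L)) (x : V L) : (deg J x : ZMod 2) = ∑ e ∈ J, bd e x := by
  unfold deg bd
  push_cast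
  rw [sum_comm' (t' := univ) (s' := fun _ => J) (by simp)]
  refine sum_congr rfl fun k _ => ?_
  rw [sum_comm' (t' := univ) (s' := fun _ => J) (by simp)]
  refine sum_congr rfl fun s _ => ?_
  rw [sum_ite_eq J (ed x k s) (fun _ => (1 : ZMod 2))]

lemma bd_ed (hL : 3 ≤ L) (c : V L) (k s : Bool) (x : V L) : bd (ed c k s) x =
    (if x = c then 1 else 0) + (if x = c + dir k s then 1 else 0) := by
  have h1 : ∀ κ σ, ed x κ σ = ed c k s ↔ (κ = k ∧ x = c ∧ σ = s) ∨
      (κ = k ∧ x = c + dir k s ∧ σ = !s) := by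
    intro κ σ
    rw [eq_comm, ed_eq_iff]
    constructor
    · rintro ⟨rfl, ⟨rfl, rfl⟩ | ⟨h, rfl⟩⟩
      · exact Or.inl ⟨rfl, rfl, rfl⟩
      · exact Or.inr ⟨rfl, h, rfl⟩
    · rintro (⟨rfl, rfl, rfl⟩ | ⟨rfl, h, rfl⟩)
      · exact ⟨rfl, Or.inl ⟨rfl, rfl⟩⟩
      · exact ⟨rfl, Or.inr ⟨h, rfl⟩⟩
  unfold bd
  simp only [h1, Fintype.sum_bool]
  have h2 := ne_add_dir hL c k s
  by_cases h3 : x = c
  · subst h3
    cases k <;> cases s <;> simp [h2]
  · by_cases h4 : x = c + dir k s
    · subst h4
      cases k <;> cases s <;> simp [h3]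
    · cases k <;> cases s <;> simp [h3, h4]

/-- `J` is a `D`-join. -/
def IsJoin (D : Finset (V L)) (J : Finset (E L)) : Prop := ∀ x, Odd (deg J x) ↔ x ∈ D

/-- `J` is a minimum `D`-join. -/
def IsMin (D : Finset (V L)) (J : Finset (E L)) : Prop :=
  IsJoin D J ∧ ∀ J', IsJoin D J' → J.card ≤ J'.card

lemma isJoin_iff (D : Finset (V L)) (J : Finset (E L)) :
    IsJoin D J ↔ ∀ x, ∑ e ∈ J, bd e x = if x ∈ D then 1 else 0 := by
  unfold IsJoin
  refine forall_congr' fun x => ?_
  rw [← deg_cast, ← Nat.not_even_iff_odd, ← ZMod.natCast_eq_zero_iff_even]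
  by_cases h : x ∈ D
  · simp only [h, iff_true, if_true]
    generalize (deg J x : ZMod 2) = a
    revert a
    decide
  · simp only [h, iff_false, if_false, not_not]

lemma sum_symmDiff {α : Type*} [DecidableEq α] (A B : Finset α) (f : α → ZMod 2) :
    ∑ e ∈ symmDiff A B, f e = ∑ e ∈ A, f e + ∑ e ∈ B, f e := by
  have h1 : Disjoint (A \ B) (B \ A) := disjoint_sdiff_sdiff
  have h2 : symmDiff A B = (A \ B) ∪ (B \ A) := rfl
  rw [h2, sum_union h1, ← sum_sdiff (inter_subset_left : A ∩ B ⊆ A),
    ← sum_sdiff (inter_subset_right : A ∩ B ⊆ B), sdiff_inter_self_left,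
    sdiff_inter_self_right]
  have h3 : ∀ a : ZMod 2, a + a = 0 := by decide
  linear_combination (norm := ring_nf) -h3 (∑ e ∈ A ∩ B, f e)
  
/-- The weight of an edge with respect to a join. -/
def wt (J : Finset (E L)) (e : E L) : ℤ := if e ∈ J then 1 else -1

/-- A cycle contains at most as many edges inside a minimum join as edges outside it. -/
lemma cycle_wt {D : Finset (V L)} {J : Finset (E L)} (hJ : IsMin D J) (C : Finset (E L))
    (hC : ∀ x, ∑ e ∈ C, bd e x = 0) : ∑ e ∈ C, wt J e ≤ 0 := by
  have h1 : IsJoin D (symmDiff J C) := by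
    rw [isJoin_iff]
    intro x
    rw [sum_symmDiff, hC, add_zero]
    exact (isJoin_iff D J).1 hJ.1 x
  have h2 := hJ.2 _ h1
  have h3 : (symmDiff J C).card = (J \ C).card + (C \ J).card :=
    card_union_of_disjoint disjoint_sdiff_sdiff
  have h4 : (J \ C).card + (J ∩ C).card = J.card := card_sdiff_add_card_inter J C
  have h5 : ∑ e ∈ C, wt J e = ((J ∩ C).card : ℤ) - ((C \ J).card : ℤ) := by
    rw [← sum_sdiff (inter_subset_right : J ∩ C ⊆ C), sdiff_inter_self_right]
    have h6 : ∑ e ∈ C \ J, wt J e = ∑ e ∈ C \ J, (-1 : ℤ) :=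
      sum_congr rfl fun e he => if_neg (mem_sdiff.1 he).2
    have h7 : ∑ e ∈ J ∩ C, wt J e = ∑ e ∈ J ∩ C, (1 : ℤ) :=
      sum_congr rfl fun e he => if_pos (mem_inter.1 he).1
    rw [h6, h7]
    simp
    ring
  rw [h5]
  omega

lemma box_cycle (hL : 3 ≤ L) (c : V L) (u : Bool → Bool) (x : V L) :
    ∑ e ∈ box c u, bd e x = 0 := by
  have h1 : ed c false (u false) ∉ ({ed c true (u true),
      ed (c + diag u) false (!u false), ed (c + diag u) true (!u true)} : Finset (E L)) := by
    simp only [mem_insert, mem_singleton, ed_eq_iff, Bool.false_eq_true, false_and, true_and,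
      or_false, false_or, not_or, not_and]
    refine ⟨fun h => ?_, fun h => ?_⟩
    · exact absurd h.symm (by simpa using diag_ne_zero hL u)
    · exact absurd h (by simpa using diag_ne_dir hL u false (u false))
  have h2 : ed c true (u true) ∉ ({ed (c + diag u) false (!u false),
      ed (c + diag u) true (!u true)} : Finset (E L)) := by
    simp only [mem_insert, mem_singleton, ed_eq_iff, Bool.true_eq_false, false_and, true_and,
      or_false, false_or, not_or, not_and]
    refine ⟨fun h => ?_, fun h => ?_⟩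
    · exact absurd h.symm (by simpa using diag_ne_zero hL u)
    · exact absurd h (by simpa using diag_ne_dir hL u true (u true))
  have h3 : ed (c + diag u) false (!u false) ∉
      ({ed (c + diag u) true (!u true)} : Finset (E L)) := by
    simp [ed_eq_iff]
  unfold box
  rw [sum_insert h1, sum_insert h2, sum_insert h3, sum_singleton, bd_ed hL, bd_ed hL, bd_ed hL,
    bd_ed hL, corner, corner]
  simp only [Bool.not_false, Bool.not_true]
  generalize (if x = c then (1 : ZMod 2) else 0) = a
  generalize (if x = c + dir false (u false) then (1 : ZMod 2) else 0) = b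
  generalize (if x = c + dir true (u true) then (1 : ZMod 2) else 0) = d
  generalize (if x = c + diag u then (1 : ZMod 2) else 0) = f
  revert a b d f
  decide

lemma box_wt (hL : 3 ≤ L) (J : Finset (E L)) (c : V L) (u : Bool → Bool) :
    ∑ e ∈ box c u, wt J e = wt J (ed c false (u false)) + wt J (ed c true (u true)) +
      wt J (ed (c + diag u) false (!u false)) + wt J (ed (c + diag u) true (!u true)) := by
  have h1 : ed c false (u false) ∉ ({ed c true (u true),
      ed (c + diag u) false (!u false), ed (c + diag u) true (!u true)} : Finset (E L)) := by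
    simp only [mem_insert, mem_singleton, ed_eq_iff, Bool.false_eq_true, false_and, true_and,
      or_false, false_or, not_or, not_and]
    refine ⟨fun h => ?_, fun h => ?_⟩
    · exact absurd h.symm (by simpa using diag_ne_zero hL u)
    · exact absurd h (by simpa using diag_ne_dir hL u false (u false))
  have h2 : ed c true (u true) ∉ ({ed (c + diag u) false (!u false),
      ed (c + diag u) true (!u true)} : Finset (E L)) := by
    simp only [mem_insert, mem_singleton, ed_eq_iff, Bool.true_eq_false, false_and, true_and,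
      or_false, false_or, not_or, not_and]
    refine ⟨fun h => ?_, fun h => ?_⟩
    · exact absurd h.symm (by simpa using diag_ne_zero hL u)
    · exact absurd h (by simpa using diag_ne_dir hL u true (u true))
  have h3 : ed (c + diag u) false (!u false) ∉
      ({ed (c + diag u) true (!u true)} : Finset (E L)) := by
    simp [ed_eq_iff]
  unfold box
  rw [sum_insert h1, sum_insert h2, sum_insert h3, sum_singleton]
  ring

/-- The other two edges of a plaquette which has two edges of a minimum join at a corner. -/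
lemma box_free (hL : 3 ≤ L) {D : Finset (V L)} {J : Finset (E L)} (hJ : IsMin D J) (c : V L)
    (u : Bool → Bool) (h : ∀ k, ed c k (u k) ∈ J) (k : Bool) : ed (c + diag u) k (!u k) ∉ J := by
  have h1 := cycle_wt hJ _ (box_cycle hL c u)
  rw [box_wt hL] at h1
  have h2 : ∀ k, wt J (ed c k (u k)) = 1 := fun k => if_pos (h k)
  rw [h2, h2] at h1
  have h3 : ∀ e, wt J e = 1 ∨ wt J e = -1 := fun e => by
    unfold wt
    split_ifs <;> simp
  intro h4
  have h5 : wt J (ed (c + diag u) k (!u k)) = 1 := if_pos h4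
  rcases h3 (ed (c + diag u) false (!u false)) with h6 | h6 <;>
    rcases h3 (ed (c + diag u) true (!u true)) with h7 | h7 <;> cases k <;> omega

end Pool.Agent.Q285.TJ
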