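import Pool.Agent.Q285.TJ.Walk

/-!
# Minimum joins with all defects of degree one
-/

namespace Pool.Agent.Q285.TJ

open Finset

variable {L : ℕ}

/-- The number of the defects whose degree is not one. -/
def bad (D : Finset (V L)) (J : Finset (E L)) : ℕ := (D.filter fun v => deg J v ≠ 1).card

lemma deg_eq (J : Finset (E L)) (v : V L) (k s s' : Bool) : deg J v =
    (if ed v k s ∈ J then 1 else 0) + (if ed v k (!s) ∈ J then 1 else 0) +
      ((if ed v (!k) s' ∈ J then 1 else 0) + (if ed v (!k) (!s') ∈ J then 1 else 0)) := by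
  unfold deg
  simp only [Fintype.sum_bool]
  cases k <;> cases s <;> cases s' <;> simp only [Bool.not_true, Bool.not_false] <;> omega

lemma deg_congr (J J' : Finset (E L)) (v : V L) (h : ∀ k s, ed v k s ∈ J ↔ ed v k s ∈ J') :
    deg J v = deg J' v := by
  unfold deg
  refine sum_congr rfl fun k _ => sum_congr rfl fun s _ => ?_
  rw [if_congr (h k s) rfl rfl]

/-- Flipping a plaquette with two edges at a corner gives a minimum join. -/
lemma flip_min (hL : 3 ≤ L) {D : Finset (V L)} {J : Finset (E L)} (hJ : IsMin D J) (c : V L)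
    (u : Bool → Bool) (h : ∀ k, ed c k (u k) ∈ J) : IsMin D (symmDiff J (box c u)) := by
  refine ⟨?_, fun J' hJ' => le_trans ?_ (hJ.2 J' hJ')⟩
  · rw [isJoin_iff]
    intro x
    rw [sum_symmDiff, box_cycle hL, add_zero]
    exact (isJoin_iff D J).1 hJ.1 x
  · have h1 : (symmDiff J (box c u)).card = (J \ box c u).card + (box c u \ J).card :=
      card_union_of_disjoint disjoint_sdiff_sdiff
    have h2 : (J \ box c u).card + (J ∩ box c u).card = J.card := card_sdiff_add_card_inter _ _
    have h3 : box c u \ J ⊆ {ed (c + diag u) false (!u false), ed (c + diag u) true (!u true)} := by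
      intro e he
      rw [mem_sdiff, mem_box] at he
      obtain ⟨⟨k, rfl | rfl⟩, h4⟩ := he
      · exact absurd (h k) h4
      · cases k <;> simp
    have h4 : ({ed c false (u false), ed c true (u true)} : Finset (E L)) ⊆ J ∩ box c u := by
      intro e he
      rw [mem_insert, mem_singleton] at he
      rw [mem_inter, mem_box]
      rcases he with rfl | rfl
      · exact ⟨h false, false, Or.inl rfl⟩
      · exact ⟨h true, true, Or.inl rfl⟩
    have h5 := card_le_card h3
    have h6 := card_le_card h4
    have h7 : ({ed c false (u false), ed c true (u true)} : Finset (E L)).card = 2 := by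
      rw [card_pair]
      rw [Ne, ed_eq_iff]
      simp
    have h8 : ({ed (c + diag u) false (!u false), ed (c + diag u) true (!u true)} :
        Finset (E L)).card ≤ 2 := card_le_two
    omega

lemma deg_flip_other (hL : 3 ≤ L) {D : Finset (V L)} {J : Finset (E L)} (hJ : IsMin D J)
    (c : V L) (u : Bool → Bool) (h : ∀ k, ed c k (u k) ∈ J) (v : V L) (h1 : v ≠ c)
    (h2 : v ≠ c + diag u) : deg (symmDiff J (box c u)) v = deg J v := by
  by_cases h3 : ∃ k, v = c + dir k (u k)
  · obtain ⟨κ, rfl⟩ := h3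
    have e1 : ed (c + dir κ (u κ)) κ (!u κ) = ed c κ (u κ) := ed_flip _ _ _
    have e2 : ed (c + dir κ (u κ)) (!κ) (u (!κ)) = ed (c + diag u) (!κ) (!u (!κ)) := by
      rw [ed_eq_iff, diag_eq u κ, add_assoc]
      simp
    have m1 : ed (c + dir κ (u κ)) κ (!u κ) ∈ box c u := by
      rw [e1, mem_box]
      exact ⟨κ, Or.inl rfl⟩
    have m2 : ed (c + dir κ (u κ)) (!κ) (u (!κ)) ∈ box c u := by
      rw [e2, mem_box]
      exact ⟨!κ, Or.inr rfl⟩
    have m3 : ed (c + dir κ (u κ)) κ (u κ) ∉ box c u := by
      rw [mem_box]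
      rintro ⟨κ', h4 | h4⟩
      · rw [ed_eq_iff] at h4
        obtain ⟨rfl, ⟨h4, -⟩ | ⟨-, h4⟩⟩ := h4
        · exact h1 h4
        · revert h4
          cases u κ <;> simp
      · rw [ed_eq_iff] at h4
        obtain ⟨rfl, ⟨h4, -⟩ | ⟨h4, -⟩⟩ := h4
        · exact h2 h4
        · rw [diag_eq u κ, add_assoc] at h4
          have h5 := dir_inj hL _ _ _ _ (add_left_cancel (add_left_cancel h4))
          have h6 := h5.1
          revert h6
          cases κ <;> simp
    have m4 : ed (c + dir κ (u κ)) (!κ) (!u (!κ)) ∉ box c u := by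
      rw [mem_box]
      rintro ⟨κ', h4 | h4⟩
      · rw [ed_eq_iff] at h4
        obtain ⟨rfl, ⟨h4, -⟩ | ⟨h4, -⟩⟩ := h4
        · exact h1 h4
        · rw [dir_not, add_assoc, left_eq_add, add_neg_eq_zero] at h4
          have h6 := (dir_inj hL _ _ _ _ h4).1
          revert h6
          cases κ <;> simp
      · rw [ed_eq_iff] at h4
        obtain ⟨rfl, ⟨h4, -⟩ | ⟨-, h4⟩⟩ := h4
        · exact h2 h4
        · revert h4
          cases u (!κ) <;> simp
    have n1 : ed (c + dir κ (u κ)) κ (!u κ) ∈ J := by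
      rw [e1]
      exact h κ
    have n2 : ed (c + dir κ (u κ)) (!κ) (u (!κ)) ∉ J := by
      rw [e2]
      exact box_free hL hJ c u h _
    rw [deg_eq _ _ κ (u κ) (u (!κ)), deg_eq J _ κ (u κ) (u (!κ))]
    simp only [mem_symmDiff, m1, m2, m3, m4, n1, n2, not_true_eq_false, not_false_eq_true,
      and_true, true_and, and_false, false_and, or_false, false_or, if_true, if_false]
    ring
  · apply deg_congr
    intro k s
    push Not at h3
    have h4 := not_mem_box c u v h1 h2 h3 k s
    rw [mem_symmDiff]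
    simp [h4]

lemma bool_ne {k τ : Bool} (h : k ≠ τ) : k = !τ := by
  revert h
  cases k <;> cases τ <;> simp

/-- The step of the walk. -/
lemma step (hL : 3 ≤ L) {D : Finset (V L)} {b : ℕ} (hb : ∀ J', IsMin D J' → b ≤ bad D J')
    (J : Finset (E L)) (c : V L) (w : Bool → Bool) (τ : Bool) (hJ : IsMin D J)
    (hbad : bad D J ≤ b) (back : ∀ k, ed c k (!w k) ∈ J) (fwd : ed c τ (w τ) ∈ J)
    (miss : ed c (!τ) (w (!τ)) ∉ J) (u : Bool → Bool)
    (hu : u = fun k => if k = τ then w k else !w k) :
    ∃ τ', IsMin D (symmDiff J (box c u)) ∧ bad D (symmDiff J (box c u)) ≤ b ∧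
      (∀ k, ed (c + diag u) k (!u k) ∈ symmDiff J (box c u)) ∧
      ed (c + diag u) τ' (u τ') ∈ symmDiff J (box c u) ∧
      ed (c + diag u) (!τ') (u (!τ')) ∉ symmDiff J (box c u) := by
  have h : ∀ k, ed c k (u k) ∈ J := by
    intro k
    by_cases h1 : k = τ
    · subst h1
      rw [hu]
      simpa using fwd
    · rw [hu]
      simpa [h1] using back k
  have hfree := box_free hL hJ c u h
  have hmin := flip_min hL hJ c u h
  have huτ : u τ = w τ := by rw [hu]; simp
  have huτ' : u (!τ) = !w (!τ) := by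
    rw [hu]
    cases τ <;> simp
  have hdc : deg J c = 3 := by
    rw [deg_eq J c τ (w τ) (w (!τ)), if_pos fwd, if_pos (back τ), if_neg miss,
      if_pos (back (!τ))]
  have hdc' : deg (symmDiff J (box c u)) c = 1 := by
    have m : ∀ k s, ed c k s ∈ symmDiff J (box c u) ↔ (ed c k s ∈ J ∧ s ≠ u k) := by
      intro k s
      rw [mem_symmDiff, mem_box_start hL]
      by_cases h1 : s = u k
      · subst h1
        simp [h k]
      · simp [h1]
    rw [deg_eq _ c τ (u τ) (u (!τ))]
    simp only [m]
    rw [if_neg (by simp), if_pos ⟨by rw [huτ]; exact back τ, by cases u τ <;> simp⟩,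
      if_neg (by simp), if_neg (by
        rintro ⟨h1, -⟩
        rw [huτ', Bool.not_not] at h1
        exact miss h1)]
  have hcc : c + diag u ≠ c := by
    intro h1
    exact diag_ne_zero hL u (by simpa using h1)
  have m' : ∀ k s, ed (c + diag u) k s ∈ symmDiff J (box c u) ↔
      (ed (c + diag u) k s ∈ J ∨ s = !u k) := by
    intro k s
    rw [mem_symmDiff, mem_box_end hL]
    by_cases h1 : s = !u k
    · subst h1
      simp [hfree k]
    · simp [h1]
  have hcD : c ∈ D := (hJ.1 c).1 (by rw [hdc]; decide)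
  -- the new site is a defect
  have hsub : ∀ v ∈ D.filter (fun v => deg (symmDiff J (box c u)) v ≠ 1), v ≠ c + diag u →
      v ∈ (D.filter (fun v => deg J v ≠ 1)).erase c := by
    intro v hv h1
    rw [mem_filter] at hv
    have h2 : v ≠ c := by
      rintro rfl
      exact hv.2 hdc'
    rw [mem_erase, mem_filter]
    refine ⟨h2, hv.1, ?_⟩
    rw [← deg_flip_other hL hJ c u h v h2 h1]
    exact hv.2
  have hcard : ((D.filter (fun v => deg J v ≠ 1)).erase c).card + 1 = bad D J := by
    have h1 : c ∈ D.filter (fun v => deg J v ≠ 1) := by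
      rw [mem_filter, hdc]
      exact ⟨hcD, by norm_num⟩
    exact card_erase_add_one h1
  have hc'D : c + diag u ∈ D := by
    by_contra h1
    have h2 : D.filter (fun v => deg (symmDiff J (box c u)) v ≠ 1) ⊆
        (D.filter (fun v => deg J v ≠ 1)).erase c := by
      intro v hv
      apply hsub v hv
      rintro rfl
      exact h1 (mem_filter.1 hv).1
    have h3 := card_le_card h2
    have h4 := hb _ hmin
    unfold bad at h4 hbad hcard
    omega
  have hbad' : bad D (symmDiff J (box c u)) ≤ b := by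
    have h2 : D.filter (fun v => deg (symmDiff J (box c u)) v ≠ 1) ⊆
        insert (c + diag u) ((D.filter (fun v => deg J v ≠ 1)).erase c) := by
      intro v hv
      by_cases h3 : v = c + diag u
      · rw [h3]
        exact mem_insert_self _ _
      · exact mem_insert_of_mem (hsub v hv h3)
    have h3 := card_le_card h2
    have h4 := card_insert_le (c + diag u) ((D.filter (fun v => deg J v ≠ 1)).erase c)
    unfold bad at hbad hcard ⊢
    omega
  have hodd : Odd (deg J (c + diag u)) := (hJ.1 _).2 hc'D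
  rw [deg_eq J (c + diag u) false (u false) (u true), if_neg (hfree false)] at hodd
  have hf' := hfree true
  simp only [Bool.not_false] at hodd hf'
  rw [if_neg hf'] at hodd
  have hback : ∀ k, ed (c + diag u) k (!u k) ∈ symmDiff J (box c u) := by
    intro k
    rw [m']
    exact Or.inr rfl
  by_cases q1 : ed (c + diag u) false (u false) ∈ J
  · by_cases q2 : ed (c + diag u) true (u true) ∈ J
    · rw [if_pos q1, if_pos q2] at hodd
      exact absurd hodd (by decide)
    · refine ⟨false, hmin, hbad', hback, (m' _ _).2 (Or.inl q1), ?_⟩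
      rw [m']
      rintro (q3 | q3)
      · exact q2 q3
      · revert q3
        cases u (!false) <;> simp
  · by_cases q2 : ed (c + diag u) true (u true) ∈ J
    · refine ⟨true, hmin, hbad', hback, (m' _ _).2 (Or.inl q2), ?_⟩
      rw [m']
      rintro (q3 | q3)
      · exact q1 q3
      · revert q3
        cases u (!true) <;> simp
    · rw [if_neg q1, if_neg q2] at hodd
      exact absurd hodd (by decide)

/-- A state of the walk. -/
structure St (D : Finset (V L)) (b : ℕ) where
  J : Finset (E L)
  c : V L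
  w : Bool → Bool
  τ : Bool
  isMin : IsMin D J
  hbad : bad D J ≤ b
  back : ∀ k, ed c k (!w k) ∈ J
  fwd : ed c τ (w τ) ∈ J
  miss : ed c (!τ) (w (!τ)) ∉ J

lemma St.next (hL : 3 ≤ L) {D : Finset (V L)} {b : ℕ} (hb : ∀ J', IsMin D J' → b ≤ bad D J')
    (s : St D b) : ∃ s' : St D b, (s'.w = fun k => if k = s.τ then s.w k else !s.w k) ∧
      s'.c = s.c + diag s'.w ∧ s'.J = symmDiff s.J (box s.c s'.w) := by
  obtain ⟨τ', h1, h2, h3, h4, h5⟩ := step hL hb s.J s.c s.w s.τ s.isMin s.hbad s.back s.fwd
    s.miss (fun k => if k = s.τ then s.w k else !s.w k) rfl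
  exact ⟨⟨_, _, _, τ', h1, h2, h3, h4, h5⟩, rfl, rfl, rfl⟩

/-- A state gives an infinite walk. -/
lemma exists_walk (hL : 3 ≤ L) {D : Finset (V L)} {b : ℕ}
    (hb : ∀ J', IsMin D J' → b ≤ bad D J') (s : St D b) : Nonempty (Walk D) := by
  choose f hf using fun s : St D b => s.next hL hb
  let g : ℕ → St D b := fun n => Nat.rec s (fun _ s => f s) n
  have hg : ∀ n, g (n + 1) = f (g n) := fun n => rfl
  exact ⟨⟨fun n => (g n).J, fun n => (g n).c, fun n => (g n).w, fun n => (g n).τ,
    fun n => (g n).isMin, fun n => (g n).back, fun n => (g n).fwd, fun n => (g n).miss,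
    fun n k => by
      change (g (n + 1)).w k = _
      rw [hg, (hf (g n)).1], fun n => by
      change (g (n + 1)).c = _ + diag (g (n + 1)).w
      rw [hg]
      exact (hf (g n)).2.1, fun n => by
      change (g (n + 1)).J = symmDiff _ (box _ (g (n + 1)).w)
      rw [hg]
      exact (hf (g n)).2.2⟩⟩

/-- The indicator sums of joins. -/
lemma exists_path (hL : 3 ≤ L) (v : V L) :
    ∃ J : Finset (E L), ∀ x, ∑ e ∈ J, bd e x = Walk.ind v x + Walk.ind 0 x := by
  have hstep : ∀ (v : V L) (k : Bool),
      (∃ J : Finset (E L), ∀ x, ∑ e ∈ J, bd e x = Walk.ind v x + Walk.ind 0 x) →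
      ∃ J : Finset (E L), ∀ x, ∑ e ∈ J, bd e x = Walk.ind (v + dir k true) x + Walk.ind 0 x := by
    rintro v k ⟨J, hJ⟩
    refine ⟨symmDiff J {ed v k true}, fun x => ?_⟩
    rw [sum_symmDiff, hJ, sum_singleton, bd_ed hL]
    change _ + (Walk.ind v x + Walk.ind (v + dir k true) x) = _
    have h : ∀ a b d : ZMod 2, a + b + (a + d) = d + b := by decide
    exact h _ _ _
  have hmain : ∀ a b : ℕ, ∃ J : Finset (E L), ∀ x,
      ∑ e ∈ J, bd e x = Walk.ind ((a : ZMod L), (b : ZMod L)) x + Walk.ind 0 x := by
    intro a b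
    induction a with
    | zero =>
      induction b with
      | zero =>
        refine ⟨∅, fun x => ?_⟩
        have h : ∀ a : ZMod 2, 0 = a + a := by decide
        rw [sum_empty, Nat.cast_zero]
        exact h _
      | succ b ih =>
        have h1 := hstep _ true ih
        have h2 : ((((0 : ℕ) : ZMod L), (b : ZMod L)) + dir true true : V L) =
            (((0 : ℕ) : ZMod L), ((b + 1 : ℕ) : ZMod L)) := by
          ext <;> simp [dir, unit]
        rw [h2] at h1
        exact h1
    | succ a ih =>
      have h1 := hstep _ false ih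
      have h2 : (((a : ZMod L), (b : ZMod L)) + dir false true : V L) =
          (((a + 1 : ℕ) : ZMod L), (b : ZMod L)) := by
        ext <;> simp [dir, unit]
      rw [h2] at h1
      exact h1
  have : NeZero L := ⟨by omega⟩
  have h1 := hmain v.1.val v.2.val
  rw [ZMod.natCast_zmod_val, ZMod.natCast_zmod_val] at h1
  exact h1

lemma exists_join (hL : 3 ≤ L) (D : Finset (V L)) (hD : Even D.card) :
    ∃ J, IsJoin D J := by
  have h1 : ∀ D : Finset (V L), ∃ J : Finset (E L), ∀ x,
      ∑ e ∈ J, bd e x = (if x ∈ D then 1 else 0) + (D.card : ZMod 2) * Walk.ind 0 x := by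
    intro D
    induction D using Finset.induction_on with
    | empty => exact ⟨∅, fun x => by simp⟩
    | insert v D hv ih =>
      obtain ⟨J, hJ⟩ := ih
      obtain ⟨J', hJ'⟩ := exists_path hL v
      refine ⟨symmDiff J J', fun x => ?_⟩
      rw [sum_symmDiff, hJ, hJ', card_insert_of_notMem hv]
      push_cast
      have h2 : (if x ∈ insert v D then (1 : ZMod 2) else 0) =
          (if x ∈ D then 1 else 0) + Walk.ind v x := by
        unfold Walk.ind
        by_cases h3 : x = v
        · subst h3
          simp [hv]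
        · simp [h3]
      rw [h2]
      ring
  obtain ⟨J, hJ⟩ := h1 D
  refine ⟨J, (isJoin_iff D J).2 fun x => ?_⟩
  rw [hJ, (ZMod.natCast_eq_zero_iff_even).2 hD, zero_mul, add_zero]

/-- The main theorem, for the edges in coordinates. -/
theorem main (hL : 3 ≤ L) (hodd : Odd L) (D : Finset (V L)) (hD : Even D.card) :
    ∃ J, IsMin D J ∧ ∀ v ∈ D, deg J v = 1 := by
  have : NeZero L := ⟨by omega⟩
  obtain ⟨J₀, hJ₀⟩ := exists_join hL D hD
  obtain ⟨J₁, hJ₁, hmin₁⟩ := Set.exists_min_image {J : Finset (E L) | IsJoin D J} Finset.card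
    (Set.toFinite _) ⟨J₀, hJ₀⟩
  obtain ⟨J, hJ, hmin⟩ := Set.exists_min_image {J : Finset (E L) | IsMin D J} (bad D)
    (Set.toFinite _) ⟨J₁, hJ₁, hmin₁⟩
  refine ⟨J, hJ, ?_⟩
  by_contra hcon
  push Not at hcon
  obtain ⟨v, hvD, hv⟩ := hcon
  have h1 : Odd (deg J v) := (hJ.1 v).2 hvD
  -- exactly one edge is missing
  have h2 : ∃ κ σ, ed v κ σ ∉ J ∧ ed v κ (!σ) ∈ J ∧ ed v (!κ) true ∈ J ∧ ed v (!κ) false ∈ J := by
    rw [deg_eq J v false true true] at h1 hv
    simp only [Bool.not_false, Bool.not_true] at h1 hv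
    by_cases a1 : ed v false true ∈ J <;> by_cases a2 : ed v false false ∈ J <;>
      by_cases a3 : ed v true true ∈ J <;> by_cases a4 : ed v true false ∈ J <;>
      simp only [a1, a2, a3, a4, if_true, if_false] at h1 hv <;>
      first
        | exact absurd h1 (by decide)
        | exact absurd rfl hv
        | exact ⟨true, false, a4, a3, a1, a2⟩
        | exact ⟨true, true, a3, a4, a1, a2⟩
        | exact ⟨false, false, a2, a1, a3, a4⟩
        | exact ⟨false, true, a1, a2, a3, a4⟩
  obtain ⟨κ, σ, h3, h4, h5, h6⟩ := h2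
  have hs : Nonempty (St D (bad D J)) := by
    refine ⟨⟨J, v, fun k => if k = κ then σ else true, !κ, hJ, le_rfl, ?_, ?_, ?_⟩⟩
    · intro k
      by_cases h7 : k = κ
      · subst h7
        simpa using h4
      · rw [bool_ne h7]
        have h8 : (!κ) ≠ κ := by cases κ <;> simp
        simpa [h8] using h6
    · have h8 : (!κ) ≠ κ := by cases κ <;> simp
      simpa [h8] using h5
    · simpa using h3
  obtain ⟨s⟩ := hs
  obtain ⟨W⟩ := exists_walk hL (fun J' hJ' => hmin J' hJ') s
  exact W.elim hL hodd

end Pool.Agent.Q285.TJ
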