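import Pool.Agent.Q285.TJ.Basic

/-!
# Infinite walks
-/

namespace Pool.Agent.Q285.TJ

open Finset

variable {L : ℕ}

/-- An infinite walk of a vertex of degree three: at the time `t` it is at `c t`, it has arrived
with the velocity `w t`, and `J t` is the minimum join. -/
structure Walk (D : Finset (V L)) where
  J : ℕ → Finset (E L)
  c : ℕ → V L
  w : ℕ → Bool → Bool
  τ : ℕ → Bool
  isMin : ∀ t, IsMin D (J t)
  back : ∀ t k, ed (c t) k (!w t k) ∈ J t
  fwd : ∀ t, ed (c t) (τ t) (w t (τ t)) ∈ J t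
  miss : ∀ t, ed (c t) (!τ t) (w t (!τ t)) ∉ J t
  w_succ : ∀ t k, w (t + 1) k = if k = τ t then w t k else !w t k
  c_succ : ∀ t, c (t + 1) = c t + diag (w (t + 1))
  J_succ : ∀ t, J (t + 1) = symmDiff (J t) (box (c t) (w (t + 1)))

namespace Walk

variable {D : Finset (V L)} (W : Walk D)

lemma w_type (t : ℕ) : W.w (t + 1) (W.τ t) = W.w t (W.τ t) := by
  rw [W.w_succ, if_pos rfl]

lemma w_ntype (t : ℕ) (k : Bool) (h : k ≠ W.τ t) : W.w (t + 1) k = !W.w t k := by
  rw [W.w_succ, if_neg h]

/-- The corner of the plaquette, seen from the end. -/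
lemma corner_back (t : ℕ) (k : Bool) :
    W.c (t + 1) + dir k (!W.w (t + 1) k) = W.c t + dir (!k) (W.w (t + 1) (!k)) := by
  rw [W.c_succ, corner]

/-- No visited site is a side corner of the corridor before the time `m`. -/
def NB (m : ℕ) : Prop := ∀ i < m, ∀ j < m, ∀ k, W.c i ≠ W.c j + dir k (W.w (j + 1) k)

lemma NB.mono {W : Walk D} {m n : ℕ} (h : W.NB n) (hmn : m ≤ n) : W.NB m :=
  fun i hi j hj k => h i (by omega) j (by omega) k

section

variable (hL : 3 ≤ L)

include hL

lemma c_ne_succ (t : ℕ) : W.c (t + 1) ≠ W.c t := by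
  rw [W.c_succ]
  intro h
  exact diag_ne_zero hL (W.w (t + 1)) (by simpa using h)

omit hL in
/-- The join at the current site before the step. -/
lemma mem_cur (t : ℕ) (k s : Bool) : ed (W.c t) k s ∈ W.J t ↔
    (s = (!W.w t k) ∨ (k = W.τ t ∧ s = W.w t k)) := by
  constructor
  · intro h
    by_cases h1 : s = !W.w t k
    · exact Or.inl h1
    · right
      have h2 : s = W.w t k := by
        revert h1
        cases s <;> cases W.w t k <;> simp
      refine ⟨?_, h2⟩
      by_contra h3
      have h4 : k = !W.τ t := by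
        revert h3
        cases k <;> cases W.τ t <;> simp
      subst h2
      subst h4
      exact W.miss t h
  · rintro (rfl | ⟨rfl, rfl⟩)
    · exact W.back t k
    · exact W.fwd t

/-- The join at a site after it has been left. -/
lemma mem_left (t : ℕ) (k s : Bool) : ed (W.c t) k s ∈ W.J (t + 1) ↔
    (k = W.τ t ∧ s = !W.w (t + 1) k) := by
  rw [W.J_succ, mem_symmDiff, mem_box_start hL, mem_cur W, W.w_succ t k]
  by_cases h : k = W.τ t
  · subst h
    simp only [true_and, if_true]
    cases s <;> cases W.w t (W.τ t) <;> simp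
  · simp only [h, false_and, or_false, if_false]
    cases s <;> cases W.w t k <;> simp

/-- The join at a site before the arrival. -/
lemma mem_before (t : ℕ) (k s : Bool) : ed (W.c (t + 1)) k s ∈ W.J t ↔
    (k = W.τ (t + 1) ∧ s = W.w (t + 1) k) := by
  have h1 := mem_cur W (t + 1) k s
  rw [W.J_succ, mem_symmDiff] at h1
  have h2 := mem_box_end hL (W.c t) (W.w (t + 1)) k s
  rw [← W.c_succ] at h2
  rw [h2] at h1
  by_cases h : ed (W.c (t + 1)) k s ∈ W.J t
  · simp only [h, true_and, not_true_eq_false, and_false, or_false, true_iff] at h1 ⊢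
    by_cases h3 : s = !W.w (t + 1) k
    · simp [h3] at h1
    · simp only [h3, not_false_eq_true, false_or, true_iff] at h1
      exact h1
  · simp only [h, false_and, not_false_eq_true, and_true, false_or, false_iff] at h1 ⊢
    rintro ⟨h3, h4⟩
    have h5 := h1.2 (Or.inr ⟨h3, h4⟩)
    rw [h4] at h5
    revert h5
    cases W.w (t + 1) k <;> simp

/-- A site which has been left keeps its edge until it is visited again. -/
lemma frozen {m : ℕ} (hNB : W.NB m) (i t : ℕ) (hit : i < t) (htm : t ≤ m)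
    (hv : ∀ l, i < l → l ≤ t → W.c l ≠ W.c i) (k s : Bool) :
    ed (W.c i) k s ∈ W.J t ↔ (k = W.τ i ∧ s = !W.w (i + 1) k) := by
  induction t, hit using Nat.le_induction with
  | base => exact mem_left W hL i k s
  | succ t hit ih =>
    rw [W.J_succ, mem_symmDiff]
    have h1 : ed (W.c i) k s ∉ box (W.c t) (W.w (t + 1)) := by
      apply not_mem_box
      · exact (hv t hit (by omega)).symm
      · rw [← W.c_succ]
        exact (hv (t + 1) (by omega) le_rfl).symm
      · intro k
        exact hNB i (by omega) t (by omega) k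
    rw [← ih (by omega) (fun l h2 h3 => hv l h2 (by omega))]
    simp [h1]

/-- Two consecutive visits. -/
lemma consecutive {m : ℕ} (hNB : W.NB m) (i t : ℕ) (hit : i < t) (htm : t ≤ m)
    (hc : W.c t = W.c i) (hv : ∀ l, i < l → l < t → W.c l ≠ W.c i) :
    W.τ t = W.τ i ∧ W.w t (W.τ i) = !W.w (i + 1) (W.τ i) := by
  obtain ⟨t, rfl⟩ : ∃ t', t = t' + 1 := ⟨t - 1, by omega⟩
  have hit' : i < t := by
    rcases Nat.lt_succ_iff_lt_or_eq.1 hit with h | h
    · exact h
    · subst h
      exact absurd hc (c_ne_succ W hL i)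
  have h1 := frozen W hL hNB i t hit' (by omega) (fun l h2 h3 => hv l h2 (by omega))
    (W.τ i) (!W.w (i + 1) (W.τ i))
  rw [← hc, mem_before W hL] at h1
  have h2 := h1.2 ⟨rfl, rfl⟩
  exact ⟨h2.1.symm, h2.2.symm⟩

omit hL in
/-- The last visit before a given time. -/
lemma exists_last (v : V L) (m i : ℕ) (hi : i < m) (hc : W.c i = v) :
    ∃ l, i ≤ l ∧ l < m ∧ W.c l = v ∧ ∀ l', l < l' → l' < m → W.c l' ≠ v := by
  induction m, hi using Nat.le_induction with
  | base => exact ⟨i, le_rfl, by omega, hc, fun l' h1 h2 => by omega⟩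
  | succ m hm ih =>
    by_cases h : W.c m = v
    · exact ⟨m, by omega, by omega, h, fun l' h1 h2 => by omega⟩
    · obtain ⟨l, h1, h2, h3, h4⟩ := ih
      refine ⟨l, h1, by omega, h3, fun l' h5 h6 => ?_⟩
      rcases Nat.lt_succ_iff_lt_or_eq.1 h6 with h7 | h7
      · exact h4 l' h5 h7
      · subst h7
        exact h

/-- The type of a site does not change. -/
lemma type_eq {m : ℕ} (hNB : W.NB m) (i j : ℕ) (hi : i ≤ m) (hj : j ≤ m)
    (hc : W.c i = W.c j) : W.τ i = W.τ j := by
  have key : ∀ j, j ≤ m → ∀ i < j, W.c i = W.c j → W.τ i = W.τ j := by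
    intro j
    induction j using Nat.strong_induction_on with
    | _ j ih =>
      intro hj i hij hc
      obtain ⟨l, h1, h2, h3, h4⟩ := exists_last W (W.c j) j i hij hc
      have h5 := consecutive W hL hNB l j h2 hj h3.symm
        (fun l' h6 h7 => by rw [h3]; exact h4 l' h6 h7)
      rcases Nat.eq_or_lt_of_le h1 with h6 | h6
      · subst h6
        exact h5.1.symm
      · rw [h5.1]
        exact ih l h2 (by omega) i h6 (by rw [h3, hc])
  rcases lt_trichotomy i j with h | h | h
  · exact key j hj i h hc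
  · rw [h]
  · exact (key i hi j h hc.symm).symm

end

/-- An alternating sequence of axes. -/
def alt (b : Bool) (t : ℕ) : Bool := if Even t then b else !b

lemma alt_succ (b : Bool) (t : ℕ) : alt b (t + 1) = !alt b t := by
  unfold alt
  by_cases h : Even t
  · simp [h, Nat.even_add_one]
  · simp [h, Nat.even_add_one]

lemma exists_alt (k : Bool) (t : ℕ) : ∃ b, alt b t = k := by
  by_cases h : Even t
  · exact ⟨k, by simp [alt, h]⟩
  · exact ⟨!k, by simp [alt, h]⟩

/-- The side corner of the corridor on a given side. -/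
def Y (b : Bool) (t : ℕ) : V L := W.c t + dir (alt b t) (W.w (t + 1) (alt b t))

lemma Y_back (b : Bool) (t : ℕ) :
    W.Y b t = W.c (t + 1) + dir (alt b (t + 1)) (!W.w (t + 1) (alt b (t + 1))) := by
  unfold Y
  rw [corner_back, alt_succ, Bool.not_not]

lemma Y_succ_of_eq (b : Bool) (t : ℕ) (h : alt b (t + 1) = W.τ (t + 1)) :
    W.Y b (t + 1) = W.c (t + 1) + dir (W.τ (t + 1)) (W.w (t + 1) (W.τ (t + 1))) := by
  unfold Y
  rw [h, w_type]

lemma Y_succ_of_ne (b : Bool) (t : ℕ) (h : alt b (t + 1) ≠ W.τ (t + 1)) :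
    W.Y b (t + 1) = W.Y b t := by
  rw [Y_back W b t, Y, w_ntype W (t + 1) _ h]

/-- The indicator of a vertex. -/
def ind (a x : V L) : ZMod 2 := if x = a then 1 else 0

/-- The mirror at a vertex. -/
def mirror (T : V L → Bool) (v : V L) : Finset (E L) := {ed v (T v) true, ed v (T v) false}

lemma mem_mirror (T : V L → Bool) (v : V L) (e : E L) :
    e ∈ mirror T v ↔ ∃ s, e = ed v (T v) s := by
  simp [mirror, or_comm]

section

variable (hL : 3 ≤ L)

include hL

lemma ed_ne (v : V L) (k : Bool) : ed v k true ≠ ed v k false := by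
  rw [Ne, ed_eq_iff]
  rintro ⟨-, ⟨-, h⟩ | ⟨h, -⟩⟩
  · exact Bool.false_ne_true h.symm
  · exact ne_add_dir hL _ _ _ h

lemma bd_mirror (T : V L → Bool) (v x : V L) (s : Bool) : ∑ e ∈ mirror T v, bd e x =
    ind (v + dir (T v) s) x + ind (v + dir (T v) (!s)) x := by
  unfold mirror
  rw [sum_pair (ed_ne hL _ _), bd_ed hL, bd_ed hL]
  have h : ∀ a b d : ZMod 2, a + b + (a + d) = b + d := by decide
  rw [h]
  unfold ind
  cases s
  · rw [add_comm]
    rfl
  · rfl

/-- The mirrors on one side of the corridor. -/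
lemma exists_set (b : Bool) (T : V L → Bool) (i m : ℕ) (him : i ≤ m)
    (hT : ∀ l, i < l → l ≤ m → T (W.c l) = W.τ l) :
    ∃ A : Finset (V L), (∀ v ∈ A, ∃ l, i < l ∧ l ≤ m ∧ W.c l = v) ∧
      ∀ x, ∑ v ∈ A, ∑ e ∈ mirror T v, bd e x = ind (W.Y b i) x + ind (W.Y b m) x := by
  induction m, him using Nat.le_induction with
  | base =>
    refine ⟨∅, by simp, fun x => ?_⟩
    have h : ∀ a : ZMod 2, 0 = a + a := by decide
    rw [sum_empty]
    exact h _
  | succ m him ih =>
    obtain ⟨A, h1, h2⟩ := ih (fun l h3 h4 => hT l h3 (by omega))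
    by_cases h : alt b (m + 1) = W.τ (m + 1)
    · refine ⟨symmDiff A {W.c (m + 1)}, ?_, fun x => ?_⟩
      · intro v hv
        rw [mem_symmDiff, mem_singleton] at hv
        rcases hv with hv | hv
        · obtain ⟨l, h3, h4, h5⟩ := h1 v hv.1
          exact ⟨l, h3, by omega, h5⟩
        · exact ⟨m + 1, by omega, le_rfl, hv.1.symm⟩
      · rw [sum_symmDiff, h2, sum_singleton,
          bd_mirror hL T (W.c (m + 1)) x (W.w (m + 1) (W.τ (m + 1))),
          hT (m + 1) (by omega) le_rfl, ← Y_succ_of_eq W b m h, Y_back W b m, h]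
        have h : ∀ a b d : ZMod 2, a + b + (d + b) = a + d := by decide
        exact h _ _ _
    · refine ⟨A, fun v hv => ?_, fun x => ?_⟩
      · obtain ⟨l, h3, h4, h5⟩ := h1 v hv
        exact ⟨l, h3, by omega, h5⟩
      · rw [h2, Y_succ_of_ne W b m h]

/-- The forward end of the mirror of the current site is not a visited site. -/
lemma key (m : ℕ) (hNB : W.NB m) (i₀ : ℕ) (hi₀ : i₀ < m)
    (hc₀ : W.c i₀ = W.c m + dir (W.τ m) (W.w m (W.τ m))) : False := by
  obtain ⟨i, -, him, hci, hlast⟩ := exists_last W _ m i₀ hi₀ hc₀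
  have hlast' : ∀ l, i < l → l ≤ m → W.c l ≠ W.c i := by
    intro l h1 h2
    rcases Nat.lt_or_eq_of_le h2 with h3 | h3
    · rw [hci]
      exact hlast l h1 h3
    · subst h3
      rw [hci]
      exact ne_add_dir hL _ _ _
  have hz := frozen W hL hNB i m him le_rfl hlast'
  obtain ⟨hτ, hw⟩ : W.τ m = W.τ i ∧ W.w m (W.τ m) = W.w (i + 1) (W.τ m) := by
    have h1 := (hz (W.τ m) (!W.w m (W.τ m))).1 (by
      rw [hci, ed_flip]
      exact W.fwd m)
    refine ⟨h1.1, ?_⟩
    have h2 := h1.2
    revert h2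
    cases W.w m (W.τ m) <;> cases W.w (i + 1) (W.τ m) <;> simp
  -- the current site has not been visited in the window
  have ha : ∀ t, i < t → t < m → W.c t ≠ W.c m := by
    intro t₀ h1 h2 h3
    obtain ⟨t, h4, h5, h6, h7⟩ := exists_last W (W.c m) m t₀ h2 h3
    have h8 := consecutive W hL hNB t m h5 le_rfl h6.symm
      (fun l h9 h10 => by rw [h6]; exact h7 l h9 h10)
    obtain ⟨t', rfl⟩ : ∃ t', t = t' + 1 := ⟨t - 1, by omega⟩
    have h9 := corner_back W t' (W.τ (t' + 1))
    apply hNB i him t' (by omega) (!W.τ (t' + 1))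
    rw [← h9, h6, hci, h8.1, h8.2, w_type]
  obtain ⟨b, hb⟩ := exists_alt (W.τ m) m
  -- the types
  obtain ⟨T, hT⟩ : ∃ T : V L → Bool, ∀ l, i < l → l ≤ m → T (W.c l) = W.τ l := by
    classical
    refine ⟨fun v => decide (∃ l, i < l ∧ l ≤ m ∧ W.c l = v ∧ W.τ l = true), fun l h1 h2 => ?_⟩
    by_cases h3 : W.τ l = true
    · rw [h3, decide_eq_true_iff]
      exact ⟨l, h1, h2, rfl, h3⟩
    · rw [Bool.not_eq_true] at h3
      rw [h3, decide_eq_false_iff_not]
      rintro ⟨l', h4, h5, h6, h7⟩
      rw [type_eq W hL hNB l' l h5 h2 h6, h3] at h7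
      exact Bool.false_ne_true h7
  obtain ⟨m', rfl⟩ : ∃ m', m = m' + 1 := ⟨m - 1, by omega⟩
  obtain ⟨A, hA1, hA2⟩ := exists_set W hL b T i m' (by omega) (fun l h1 h2 => hT l h1 (by omega))
  -- adjacent sites in the direction of a mirror
  have hP : ∀ l l', i < l → l ≤ m' + 1 → i < l' → l' < m' + 1 → ∀ s,
      W.c l' ≠ W.c l + dir (W.τ l) s := by
    intro l l' h1 h2 h3 h4 s h5
    by_cases h6 : s = W.w l (W.τ l)
    · rcases Nat.lt_or_eq_of_le h2 with h7 | h7
      · apply hNB l' h4 l h7 (W.τ l)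
        rw [w_type, ← h6]
        exact h5
      · subst h7
        apply hlast' l' h3 h4.le
        rw [h5, hci, h6]
    · obtain ⟨l₁, rfl⟩ : ∃ l₁, l = l₁ + 1 := ⟨l - 1, by omega⟩
      have h7 : s = !W.w (l₁ + 1) (W.τ (l₁ + 1)) := by
        revert h6
        cases s <;> cases W.w (l₁ + 1) (W.τ (l₁ + 1)) <;> simp
      apply hNB l' h4 l₁ (by omega) (!W.τ (l₁ + 1))
      rw [← corner_back, h5, h7]
  have hcm : W.c (m' + 1) ∉ A := by
    intro h
    obtain ⟨l, h1, h2, h3⟩ := hA1 _ h
    exact ha l h1 (by omega) h3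
  have hB : ∀ v ∈ insert (W.c (m' + 1)) A, ∃ l, i < l ∧ l ≤ m' + 1 ∧ W.c l = v := by
    intro v hv
    rcases mem_insert.1 hv with h | h
    · exact ⟨m' + 1, by omega, le_rfl, h.symm⟩
    · obtain ⟨l, h1, h2, h3⟩ := hA1 _ h
      exact ⟨l, h1, by omega, h3⟩
  have hdisj : ∀ v ∈ insert (W.c (m' + 1)) A, ∀ v' ∈ insert (W.c (m' + 1)) A, v ≠ v' →
      Disjoint (mirror T v) (mirror T v') := by
    intro v hv v' hv' hne
    obtain ⟨l, h1, h2, rfl⟩ := hB v hv
    obtain ⟨l', h3, h4, rfl⟩ := hB v' hv'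
    rw [disjoint_left]
    intro e he he'
    rw [mem_mirror] at he he'
    obtain ⟨s, rfl⟩ := he
    obtain ⟨s', he'⟩ := he'
    rw [hT l h1 h2, hT l' h3 h4] at he'
    have he'' := he'.symm
    rw [ed_eq_iff] at he' he''
    rcases Nat.lt_or_eq_of_le h4 with h5 | h5
    · obtain ⟨-, ⟨h6, -⟩ | ⟨h6, -⟩⟩ := he'
      · exact hne h6
      · exact hP l l' h1 h2 h3 h5 s h6
    · rcases Nat.lt_or_eq_of_le h2 with h5' | h5'
      · obtain ⟨-, ⟨h6, -⟩ | ⟨h6, -⟩⟩ := he''
        · exact hne h6.symm
        · exact hP l' l h3 h4 h1 h5' s' h6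
      · exact hne (by rw [h5, h5'])
  -- the closing edge
  set e₀ : E L := ed (W.c i) (alt b i) (W.w (i + 1) (alt b i)) with he₀
  have he₀' : ∀ v ∈ insert (W.c (m' + 1)) A, e₀ ∉ mirror T v := by
    intro v hv he
    obtain ⟨l, h1, h2, rfl⟩ := hB v hv
    rw [mem_mirror, hT l h1 h2] at he
    obtain ⟨s, he⟩ := he
    rw [he₀, ed_eq_iff] at he
    obtain ⟨-, ⟨h6, -⟩ | ⟨h6, -⟩⟩ := he
    · exact hlast' l h1 h2 h6.symm
    · rcases Nat.lt_or_eq_of_le h2 with h5 | h5
      · exact hNB l h5 i him _ h6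
      · subst h5
        rw [hci, add_assoc] at h6
        have h7 : dir (W.τ (m' + 1)) (W.w (m' + 1) (W.τ (m' + 1))) +
            dir (alt b i) (W.w (i + 1) (alt b i)) = (0 : V L) := by
          simpa using h6.symm
        rw [← neg_eq_iff_add_eq_zero, ← dir_not] at h7
        obtain ⟨h8, h9⟩ := dir_inj hL _ _ _ _ h7
        rw [← h8, hw] at h9
        revert h9
        cases W.w (i + 1) (W.τ (m' + 1)) <;> simp
  have he₁ : e₀ ∉ W.J (m' + 1) := by
    rw [he₀, hz]
    rintro ⟨h1, h2⟩
    revert h2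
    cases W.w (i + 1) (alt b i) <;> simp
  -- the cycle
  have hnot : e₀ ∉ (insert (W.c (m' + 1)) A).biUnion (mirror T) := by
    rw [mem_biUnion]
    rintro ⟨v, hv, h⟩
    exact he₀' v hv h
  have hcyc := cycle_wt (W.isMin (m' + 1)) (insert e₀ ((insert (W.c (m' + 1)) A).biUnion
    (mirror T))) (by
      intro x
      rw [sum_insert hnot, sum_biUnion (fun v hv v' hv' => hdisj v hv v' hv'), sum_insert hcm,
        hA2, he₀, bd_ed hL, bd_mirror hL T (W.c (m' + 1)) x (W.w (m' + 1) (W.τ (m' + 1))),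
        hT (m' + 1) (by omega) le_rfl, ← hci, Y_back W b m', hb]
      change ind (W.c i) x + ind (W.Y b i) x + _ = 0
      have h : ∀ a b d : ZMod 2, a + b + (a + d + (b + d)) = 0 := by decide
      exact h _ _ _)
  rw [sum_insert hnot, sum_biUnion (fun v hv v' hv' => hdisj v hv v' hv'), sum_insert hcm] at hcyc
  have h1 : ∑ v ∈ A, ∑ e ∈ mirror T v, wt (W.J (m' + 1)) e = 0 := by
    apply sum_eq_zero
    intro v hv
    obtain ⟨l₀, h1, h2, h3⟩ := hA1 v hv
    obtain ⟨l, h4, h5, h6, h7⟩ := exists_last W v (m' + 1) l₀ (by omega) h3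
    subst h6
    have h8 := frozen W hL hNB l (m' + 1) h5 le_rfl (fun l' h9 h10 => by
      rcases Nat.lt_or_eq_of_le h10 with h11 | h11
      · exact h7 l' h9 h11
      · subst h11
        intro h12
        exact ha l (by omega) h5 h12.symm)
    unfold mirror
    rw [sum_pair (ed_ne hL _ _), hT l (by omega) (by omega)]
    unfold wt
    rw [if_congr (h8 _ _) rfl rfl, if_congr (h8 _ _) rfl rfl]
    cases W.w (l + 1) (W.τ l) <;> simp
  have h2 : ∑ e ∈ mirror T (W.c (m' + 1)), wt (W.J (m' + 1)) e = 2 := by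
    unfold mirror
    rw [sum_pair (ed_ne hL _ _), hT (m' + 1) (by omega) le_rfl]
    have h3 : ∀ s, ed (W.c (m' + 1)) (W.τ (m' + 1)) s ∈ W.J (m' + 1) := by
      intro s
      rw [mem_cur]
      cases s <;> cases W.w (m' + 1) (W.τ (m' + 1)) <;> simp
    unfold wt
    rw [if_pos (h3 _), if_pos (h3 _)]
    norm_num
  have h3 : wt (W.J (m' + 1)) e₀ = -1 := if_neg he₁
  rw [h1, h2, h3] at hcyc
  norm_num at hcyc

end

section

variable (hL : 3 ≤ L)

include hL

/-- A visited site is never a side corner of the corridor. -/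
lemma nb (m : ℕ) : W.NB m := by
  induction m with
  | zero => exact fun i hi => absurd hi (by omega)
  | succ m hNB =>
    intro i hi j hj k h
    rcases Nat.lt_or_eq_of_le (Nat.lt_succ_iff.1 hj) with hj' | rfl
    · rcases Nat.lt_or_eq_of_le (Nat.lt_succ_iff.1 hi) with hi' | rfl
      · exact hNB i hi' j hj' k h
      · -- now `c i` is a side corner at the time `j < i`
        rename' i => m
        have h1 : W.c j = W.c m + dir k (!W.w (j + 1) k) := by
          rw [h, dir_not]
          abel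
        have h2 : W.c (j + 1) = W.c m + dir (!k) (W.w (j + 1) (!k)) := by
          rw [W.c_succ, diag_eq _ k, h]
          abel
        have hjm : j + 1 < m := by
          rcases Nat.lt_or_eq_of_le (show j + 1 ≤ m by omega) with h3 | h3
          · exact h3
          · rw [h3] at h2
            exact absurd h2 (ne_add_dir hL _ _ _)
        have h3 : ∀ κ s l, l < m → W.c l = W.c m + dir κ s → s = W.w m κ := by
          intro κ s l hl h4
          by_contra h5
          obtain ⟨m', rfl⟩ : ∃ m', m = m' + 1 := ⟨m - 1, by omega⟩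
          have h6 : s = !W.w (m' + 1) κ := by
            revert h5
            cases s <;> cases W.w (m' + 1) κ <;> simp
          apply hNB l hl m' (by omega) (!κ)
          rw [← corner_back, h4, h6]
        have h4 := h3 _ _ j (by omega) h1
        have h5 := h3 _ _ (j + 1) hjm h2
        by_cases h6 : k = W.τ m
        · apply key W hL m hNB j (by omega)
          rw [h1, h4, h6]
        · have h7 : (!k) = W.τ m := by
            revert h6
            cases k <;> cases W.τ m <;> simp
          apply key W hL m hNB (j + 1) hjm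
          rw [h2, h5, h7]
    · rename' j => m
      rcases Nat.lt_or_eq_of_le (Nat.lt_succ_iff.1 hi) with hi' | rfl
      · by_cases h6 : k = W.τ m
        · apply key W hL m hNB i hi'
          rw [h, h6, w_type]
        · obtain ⟨m', rfl⟩ : ∃ m', m = m' + 1 := ⟨m - 1, by omega⟩
          apply hNB i hi' m' (by omega) (!k)
          rw [← corner_back, h, w_ntype W (m' + 1) k h6]
      · exact ne_add_dir hL _ _ _ h

lemma nb' (i j : ℕ) (k : Bool) : W.c i ≠ W.c j + dir k (W.w (j + 1) k) :=
  nb W hL (i + j + 1) i (by omega) j (by omega) k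

lemma type_eq' (i j : ℕ) (hc : W.c i = W.c j) : W.τ i = W.τ j :=
  type_eq W hL (nb W hL (i + j)) i j (by omega) (by omega) hc

/-- The state determines the next state. -/
lemma det_succ (s t : ℕ) (h1 : W.c s = W.c t) (h2 : W.w (s + 1) = W.w (t + 1)) :
    W.c (s + 1) = W.c (t + 1) ∧ W.w (s + 2) = W.w (t + 2) := by
  have h3 : W.c (s + 1) = W.c (t + 1) := by rw [W.c_succ, W.c_succ, h1, h2]
  refine ⟨h3, ?_⟩
  ext k
  rw [W.w_succ (s + 1), W.w_succ (t + 1), type_eq' W hL _ _ h3, h2]

/-- The state determines the previous state. -/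
lemma det_pred (s t : ℕ) (h1 : W.c (s + 1) = W.c (t + 1)) (h2 : W.w (s + 2) = W.w (t + 2)) :
    W.c s = W.c t ∧ W.w (s + 1) = W.w (t + 1) := by
  have h3 : W.w (s + 1) = W.w (t + 1) := by
    ext k
    have h4 := congrFun h2 k
    rw [W.w_succ (s + 1), W.w_succ (t + 1), type_eq' W hL _ _ h1] at h4
    by_cases h5 : k = W.τ (t + 1)
    · simpa [h5] using h4
    · simpa [h5] using h4
  refine ⟨?_, h3⟩
  rw [W.c_succ, W.c_succ, h3] at h1
  exact add_right_cancel h1

lemma periodic : ∃ N, 0 < N ∧ ∀ t, W.c (t + N) = W.c t := by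
  have : NeZero L := ⟨by omega⟩
  obtain ⟨s, t, hst, h⟩ := Finite.exists_ne_map_eq_of_infinite
    (fun t : ℕ => ((W.c t, W.w (t + 1)) : V L × (Bool → Bool)))
  wlog hlt : s < t generalizing s t
  · exact this t s hst.symm h.symm (by omega)
  simp only [Prod.mk.injEq] at h
  have h0 : W.c 0 = W.c (t - s) ∧ W.w 1 = W.w (t - s + 1) := by
    clear hst
    induction s generalizing t with
    | zero => simpa using h
    | succ s ih =>
      obtain ⟨t, rfl⟩ : ∃ t', t = t' + 1 := ⟨t - 1, by omega⟩
      rw [show t + 1 - (s + 1) = t - s by omega]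
      exact ih t (by omega) (det_pred W hL s t h.1 h.2)
  refine ⟨t - s, by omega, fun n => ?_⟩
  have h2 : W.c n = W.c (n + (t - s)) ∧ W.w (n + 1) = W.w (n + (t - s) + 1) := by
    induction n with
    | zero => simpa using h0
    | succ n ih =>
      have h3 := det_succ W hL n (n + (t - s)) ih.1 ih.2
      rw [show n + 1 + (t - s) = n + (t - s) + 1 by omega]
      exact h3
  exact h2.1.symm

/-- The walk does not turn back. -/
lemma no_reversal (n : ℕ) : ∀ s, W.c (s + n) = W.c s → (∀ k, W.w (s + n) k = !W.w (s + 1) k) →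
    False := by
  induction n using Nat.strong_induction_on with
  | _ n ih =>
    intro s h1 h2
    rcases Nat.lt_or_ge n 2 with h3 | h3
    · interval_cases n
      · have h4 := h2 (W.τ s)
        rw [w_type] at h4
        revert h4
        rw [Nat.add_zero]
        cases W.w s (W.τ s) <;> simp
      · exact c_ne_succ W hL s h1
    · obtain ⟨n, rfl⟩ : ∃ n', n = n' + 2 := ⟨n - 2, by omega⟩
      rw [show s + (n + 2) = s + n + 1 + 1 by omega] at h1 h2
      have h4 : W.c (s + n + 1) = W.c (s + 1) := by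
        have h5 : diag (W.w (s + n + 1 + 1)) = -(diag (W.w (s + 1)) : V L) := by
          unfold diag
          rw [h2, h2, dir_not, dir_not]
          abel
        have h6 := W.c_succ (s + n + 1)
        rw [h5, h1] at h6
        rw [W.c_succ s, h6]
        abel
      have h7 := type_eq' W hL _ _ h4
      apply ih n (by omega) (s + 1)
      · rw [show s + 1 + n = s + n + 1 by omega]
        exact h4
      · intro k
        rw [show s + 1 + n = s + n + 1 by omega]
        have h8 := h2 k
        rw [W.w_succ (s + n + 1), h7] at h8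
        rw [W.w_succ (s + 1)]
        by_cases h9 : k = W.τ (s + 1)
        · simpa [h9] using h8
        · simp only [h9, if_false] at h8 ⊢
          rw [← h8]
          cases W.w (s + n + 1) k <;> rfl

/-- Every visited site is visited from both sides. -/
lemma opposite (t : ℕ) : ∃ t', t < t' ∧ W.c t' = W.c t ∧ ∀ k, W.w t' k = !W.w t k := by
  obtain ⟨N, hN, hper⟩ := periodic W hL
  have hex : ∃ t', t < t' ∧ W.c t' = W.c t := ⟨t + N, by omega, hper t⟩
  classical
  obtain ⟨h1, h2⟩ := Nat.find_spec hex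
  have h3 := fun l (hl : l < Nat.find hex) => Nat.find_min hex hl
  set t' := Nat.find hex
  have h4 := consecutive W hL (nb W hL t') t t' h1 le_rfl h2
    (fun l h5 h6 h7 => h3 l h6 ⟨h5, h7⟩)
  refine ⟨t', h1, h2, ?_⟩
  by_contra h5
  obtain ⟨n, hn⟩ : ∃ n, t' = t + n := ⟨t' - t, by omega⟩
  apply no_reversal W hL n t (by rw [← hn]; exact h2)
  intro k
  rw [← hn]
  by_cases h6 : k = W.τ t
  · rw [h6]
    exact h4.2
  · rw [w_ntype W t k h6, Bool.not_not]
    by_contra h7
    apply h5
    intro κ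
    by_cases h8 : κ = W.τ t
    · rw [h8, h4.2, w_type]
    · have h9 : κ = k := by
        revert h6 h8
        cases κ <;> cases k <;> cases W.τ t <;> simp
      rw [h9]
      revert h7
      cases W.w t' k <;> cases W.w t k <;> simp

/-- The set of the visited sites is closed under diagonal steps. -/
lemma closed (t : ℕ) (u : Bool → Bool) : ∃ t', W.c (t' + 1) = W.c (t + 1) + diag u := by
  obtain ⟨N, hN, hper⟩ := periodic W hL
  have hmain : ∃ t', W.c t' = W.c (t + 1) + diag u := by
    obtain ⟨t₂, h1, h2, h3⟩ := opposite W hL (t + 1)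
    obtain ⟨t₃, rfl⟩ : ∃ t₃, t₂ = t₃ + 1 := ⟨t₂ - 1, by omega⟩
    have e1 : W.c t = W.c (t + 1) + diag (fun k => !W.w (t + 1) k) := by
      rw [W.c_succ t]
      unfold diag
      rw [dir_not, dir_not]
      abel
    have e2 : W.c t₃ = W.c (t + 1) + diag (W.w (t + 1)) := by
      have h4 := W.c_succ t₃
      have h5 : diag (W.w (t₃ + 1)) = -(diag (W.w (t + 1)) : V L) := by
        unfold diag
        rw [h3, h3, dir_not, dir_not]
        abel
      rw [h5, h2] at h4
      rw [h4]
      abel
    have e3 : W.c (t + 2) = W.c (t + 1) + diag (W.w (t + 2)) := W.c_succ (t + 1)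
    have e4 : W.c (t₃ + 2) = W.c (t + 1) + diag (fun k => !W.w (t + 2) k) := by
      rw [W.c_succ (t₃ + 1), h2]
      congr 2
      ext k
      rw [W.w_succ (t₃ + 1), W.w_succ (t + 1), type_eq' W hL _ _ h2, h3]
      split_ifs <;> rfl
    -- the four vectors are all the diagonal vectors
    have h5 : ∀ k, W.w (t + 2) k = if k = W.τ (t + 1) then W.w (t + 1) k else !W.w (t + 1) k :=
      W.w_succ (t + 1)
    by_cases c1 : u = fun k => !W.w (t + 1) k
    · exact ⟨t, by rw [c1]; exact e1⟩
    by_cases c2 : u = W.w (t + 1)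
    · exact ⟨t₃, by rw [c2]; exact e2⟩
    by_cases c3 : u = W.w (t + 2)
    · exact ⟨t + 2, by rw [c3]; exact e3⟩
    refine ⟨t₃ + 2, ?_⟩
    rw [e4]
    congr 2
    ext k
    have d1 : ∃ k, u k ≠ !W.w (t + 1) k := by
      by_contra h
      push Not at h
      exact c1 (funext h)
    have d2 : ∃ k, u k ≠ W.w (t + 1) k := by
      by_contra h
      push Not at h
      exact c2 (funext h)
    have d3 : ∃ k, u k ≠ W.w (t + 2) k := by
      by_contra h
      push Not at h
      exact c3 (funext h)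
    have h6 := h5 false
    have h7 := h5 true
    simp only [Bool.exists_bool] at d1 d2 d3
    clear e1 e2 e3 e4 c1 c2 c3 h1 h2 h3 h5
    revert d1 d2 d3 h6 h7
    cases k <;> cases u false <;> cases u true <;> cases W.w (t + 1) false <;>
      cases W.w (t + 1) true <;> cases W.w (t + 2) false <;> cases W.w (t + 2) true <;>
      cases W.τ (t + 1) <;> simp
  obtain ⟨t', ht'⟩ := hmain
  refine ⟨t' + N - 1, ?_⟩
  rw [show t' + N - 1 + 1 = t' + N by omega, hper, ht']

end

include W in
/-- There is no infinite walk when `L` is odd. -/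
theorem elim (hL : 3 ≤ L) (hodd : Odd L) : False := by
  have h1 : ∀ n : ℕ, ∃ t, W.c (t + 1) = W.c 1 + ((2 * n : ℕ) : ZMod L) • ((1, 0) : V L) := by
    intro n
    induction n with
    | zero => exact ⟨0, by simp⟩
    | succ n ih =>
      obtain ⟨t, ht⟩ := ih
      obtain ⟨t₂, ht₂⟩ := closed W hL t (fun _ => true)
      obtain ⟨t₃, ht₃⟩ := closed W hL t₂ (fun k => !k)
      refine ⟨t₃, ?_⟩
      rw [ht₃, ht₂, ht]
      ext
      · simp [diag, dir, unit]
        ring
      · simp [diag, dir, unit]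
  obtain ⟨q, hq⟩ := hodd
  have h2 : ∀ s, ∃ t, W.c (t + 1) = W.c 1 + dir false s := by
    intro s
    cases s
    · obtain ⟨t, ht⟩ := h1 q
      refine ⟨t, ?_⟩
      rw [ht]
      have h3 : ((2 * q : ℕ) : ZMod L) = -1 := by
        have h4 : ((2 * q + 1 : ℕ) : ZMod L) = 0 := by
          rw [← hq]
          exact ZMod.natCast_self L
        push_cast at h4 ⊢
        linear_combination h4
      rw [h3]
      simp [dir, unit]
    · obtain ⟨t, ht⟩ := h1 (q + 1)
      refine ⟨t, ?_⟩
      rw [ht]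
      have h3 : ((2 * (q + 1) : ℕ) : ZMod L) = 1 := by
        have h4 : ((2 * q + 1 : ℕ) : ZMod L) = 0 := by
          rw [← hq]
          exact ZMod.natCast_self L
        push_cast at h4 ⊢
        linear_combination h4
      rw [h3]
      simp [dir, unit]
  obtain ⟨t, ht⟩ := h2 (W.w 2 false)
  exact nb' W hL (t + 1) 1 false ht

end Walk

end Pool.Agent.Q285.TJ
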